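import Pool.Agent.X52.RFin
import Pool.Agent.X52.RInd

/-!
# MP_6a4d09_co, Q1: a finest matroid subdivision of a hypersimplex with a decomposable cell

The ground set is identified with the 13 points of the projective plane over the field with three
elements, and the hypersimplex is `Δ(3, 13)`. A finest refinement `C` of the corank subdivision
of `PG(2, 3)` has the indecomposable matroid polytope of `PG(2, 3)` as a cell; so its facet of a
line is not subdivided in `C`, and the cell on the other side of this facet is decomposable.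

`matroidPolytope`, `IsMatroidSubdivision`, `IsMaximalCell` and `IsIndecomposable` are those of
`Pool.Agent.Results.MP_da28a5_co.Indecomposable`.
-/

set_option autoImplicit false

open scoped LinearAlgebra.Projectivization
open Pool.Agent.Results.MP_da28a5_co.Indecomposable

namespace Pool.Agent.Results.MP_6a4d09_co.DecomposableCell

/-- The subdivision `C'` refines `C`: every cell of `C'` is contained in a cell of `C`. -/
def Refines {E : Type} (C' C : Set (Matroid E)) : Prop :=
  ∀ N' ∈ C', ∃ N ∈ C, matroidPolytope N' ⊆ matroidPolytope N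

/-- `C` is a finest matroid subdivision of the matroid polytope of `M`: it is a matroid
subdivision and no matroid subdivision of the same polytope properly refines it (a matroid
subdivision refining `C` is also refined by `C`). -/
def IsFinest {E : Type} (M : Matroid E) (C : Set (Matroid E)) : Prop :=
  IsMatroidSubdivision M C ∧ ∀ C', IsMatroidSubdivision M C' → Refines C' C → Refines C C'

/-- `U` is the uniform matroid `U_{k,n}` on the set `[n]` of all elements of `Fin n`; its matroid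
polytope is the hypersimplex `Δ(k, n)`. -/
def IsUniform {n : ℕ} (k : ℕ) (U : Matroid (Fin n)) : Prop :=
  U.E = Set.univ ∧ ∀ B : Set (Fin n), U.IsBase B ↔ B.ncard = k

open Pool.Agent.X52.PG in
/-- **Q1 of MP_6a4d09_co is answered in the negative.** There is a finest matroid subdivision of
the hypersimplex `Δ(3, 13)` with a maximal cell whose matroid is decomposable. -/
theorem result : ∃ U : Matroid (Fin 13), IsUniform 3 U ∧
    ∃ C, IsFinest U C ∧ ∃ N, IsMaximalCell C N ∧ ¬ IsIndecomposable N := by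
  classical
  have hfr : Module.finrank (ZMod 3) (Fin 3 → ZMod 3) = 3 := by simp
  have hcard : Nat.card (ℙ (ZMod 3) (Fin 3 → ZMod 3)) = 13 := by
    rw [Projectivization.card_of_finrank (ZMod 3) (Fin 3 → ZMod 3) hfr, Nat.card_zmod]; decide
  have : Finite (ℙ (ZMod 3) (Fin 3 → ZMod 3)) := Nat.finite_of_card_ne_zero (by rw [hcard]; decide)
  let e : ℙ (ZMod 3) (Fin 3 → ZMod 3) ≃ Fin 13 := Finite.equivFinOfCardEq hcard
  have G0 := geo (ZMod 3) 3 (e.symm 0)
  set vec0 : ℙ (ZMod 3) (Fin 3 → ZMod 3) → (Fin 3 → ZMod 3) := fun p => p.rep with hvec0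
  obtain ⟨pt0, G0⟩ : ∃ pt0, Geo (ZMod 3) vec0 pt0 := ⟨_, G0⟩
  set vec : Fin 13 → (Fin 3 → ZMod 3) := fun i => vec0 (e.symm i) with hvec
  set pt : (Fin 3 → ZMod 3) → Fin 13 := fun v => e (pt0 v) with hpt
  have G : Geo (ZMod 3) vec pt := by
    refine ⟨fun x => G0.ne _, ?_, ?_⟩
    · intro v hv
      obtain ⟨c, hc, h⟩ := G0.pt v hv
      exact ⟨c, hc, by simp only [hvec, hpt, Equiv.symm_apply_apply]; exact h⟩
    · intro x y c hc h
      exact e.symm.injective (G0.inj _ _ c hc h)
  -- the matroids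
  obtain ⟨A0, hA0, -⟩ := exists_base hfr G 0
  obtain ⟨PGm, hPGE, hPG⟩ := exists_mat (PB (ZMod 3) vec 3) ⟨A0, hA0⟩ (exch_PB hfr)
  have hexU : Exch (fun B : Finset (Fin 13) => B.card = 3) := by
    intro A B hA hB e' he he'
    obtain ⟨f, hf, hf', h1, -⟩ := val_wt hfr G A B hA hB e' he he'
    exact ⟨f, hf, hf', h1⟩
  obtain ⟨U, hUE, hU⟩ := exists_mat (fun B : Finset (Fin 13) => B.card = 3)
    ⟨A0, hA0.2⟩ hexU
  have hind : IsIndecomposable PGm := pg_indec hfr G (le_refl 3) hPG
  -- the line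
  set f2 : (Fin 3 → ZMod 3) →ₗ[ZMod 3] ZMod 3 := LinearMap.proj 2 with hf2
  have hne : ∀ u v : Fin 3 → ZMod 3, u ≠ 0 → v ≠ 0 →
      (∀ s t : ZMod 3, s ≠ 0 → t ≠ 0 → s • u ≠ t • v) → pt u ≠ pt v := by
    intro u v hu hv h heq
    obtain ⟨s, hs, h1⟩ := G.pt u hu
    obtain ⟨t, ht, h2⟩ := G.pt v hv
    rw [heq, h2] at h1
    exact h s t hs ht h1.symm
  have hval : ∀ u : Fin 3 → ZMod 3, u ≠ 0 → (f2 (vec (pt u)) = 0 ↔ u 2 = 0) := by
    intro u hu
    obtain ⟨s, hs, h1⟩ := G.pt u hu
    rw [h1, map_smul, smul_eq_mul, mul_eq_zero]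
    simp only [hs, false_or, hf2, LinearMap.proj_apply]
  have n1 : (![1, 0, 0] : Fin 3 → ZMod 3) ≠ 0 := by decide
  have n2 : (![0, 1, 0] : Fin 3 → ZMod 3) ≠ 0 := by decide
  have n3 : (![1, 1, 0] : Fin 3 → ZMod 3) ≠ 0 := by decide
  have n4 : (![1, 2, 0] : Fin 3 → ZMod 3) ≠ 0 := by decide
  have n5 : (![0, 0, 1] : Fin 3 → ZMod 3) ≠ 0 := by decide
  have hq0 : f2 (vec (pt ![0, 0, 1])) ≠ 0 := by
    rw [Ne, hval _ n5]; decide
  have hlist : ∀ v : Fin 3 → ZMod 3, v ≠ 0 → v 2 = 0 → ∃ k : ZMod 3, k ≠ 0 ∧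
      (![1, 0, 0] = k • v ∨ ![0, 1, 0] = k • v ∨ ![1, 1, 0] = k • v ∨ ![1, 2, 0] = k • v) := by
    decide
  have hL : ∀ x, x ∈ ({pt ![1, 0, 0], pt ![0, 1, 0], pt ![1, 1, 0], pt ![1, 2, 0]} :
      Finset (Fin 13)) ↔ f2 (vec x) = 0 := by
    intro x
    simp only [Finset.mem_insert, Finset.mem_singleton]
    constructor
    · rintro (rfl | rfl | rfl | rfl)
      · rw [hval _ n1]; decide
      · rw [hval _ n2]; decide
      · rw [hval _ n3]; decide
      · rw [hval _ n4]; decide
    · intro h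
      obtain ⟨k, hk, h1 | h1 | h1 | h1⟩ := hlist (vec x) (G.ne x) h
      · exact Or.inl (G.pt_eq hk h1).symm
      · exact Or.inr (Or.inl (G.pt_eq hk h1).symm)
      · exact Or.inr (Or.inr (Or.inl (G.pt_eq hk h1).symm))
      · exact Or.inr (Or.inr (Or.inr (G.pt_eq hk h1).symm))
  have hmain := main_abs hfr G hPGE hPG hind hUE hU hq0
    (hne _ _ n1 n2 (by decide)) (hne _ _ n1 n3 (by decide)) (hne _ _ n1 n4 (by decide))
    (hne _ _ n2 n3 (by decide)) (hne _ _ n2 n4 (by decide)) (hne _ _ n3 n4 (by decide)) hL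
  obtain ⟨C, hC, hfin, N, hN, hdec⟩ := hmain
  refine ⟨U, ⟨hUE, ?_⟩, C, ⟨hC, hfin⟩, N, hN, hdec⟩
  intro B
  lift B to Finset (Fin 13) using Set.toFinite B
  rw [Set.ncard_coe_finset]
  exact hU B

end Pool.Agent.Results.MP_6a4d09_co.DecomposableCell
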